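import Pool.Agent.Y542.FGRing

/-!
Every finitely generated commutative ring, in particular every finitely generated integral domain,
has a d-`Σ_2` Scott sentence.

Let `a` generate `R`, let `x = p(a)` satisfy all the universal formulas true of `a`. As the ideal of
relations of `a` is finitely generated, `∃ w, w satisfies the relations of a and x = p(w)` is an
existential formula true of `x`, so `a = p(w)` for a tuple `w` satisfying the relations of `a`. The
endomorphism `a ↦ w` maps `x` to `a`, so it is surjective, hence injective (noetherian rings are
Hopfian), and `x` generates `R`.
-/

set_option autoImplicit false

namespace Pool.Agent.Results.MP_93e0ce_lc.CommRings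

/-- Every commutative ring which is finitely generated as a structure in the language of rings has
a d-`Σ_2` Scott sentence. -/
theorem result (R : Type) [CommRing R] [FirstOrder.Ring.CompatibleRing R]
    (h : FirstOrder.Language.Structure.FG FirstOrder.Language.ring R) :
    Pool.Agent.TH750.SC.HasDSigma2Scott FirstOrder.Language.ring R :=
  Pool.Agent.Y542.scott_of_fg h

end Pool.Agent.Results.MP_93e0ce_lc.CommRings
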